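import Pool.Agent.H252.EL.All
import Pool.Agent.H252.EL.Ell

/-!
# MP_501a10_an: simple AH algebras with infinite radius of comparison and K₁ = 0

There is a family of C*-algebras, indexed by `ℕ → Bool`, of pairwise non-isomorphic simple
separable AH algebras with trivial `K₁`, infinite radius of comparison and the same Elliott
invariant.
-/

set_option autoImplicit false

namespace Pool.Agent.Results.MP_501a10_an.UncountableFamily

open Pool.Agent.H252.EL

theorem result : ∃ (A : (ℕ → Bool) → Type) (_ : ∀ ω, CStarAlgebra (A ω)),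
    (∀ ω, IsSimpleRing (A ω) ∧ TopologicalSpace.SeparableSpace (A ω) ∧ IsAHLimit (A ω) ∧
      rc (A ω) = ⊤) ∧
    (∀ ω ω', SameEll (A ω) (A ω')) ∧
    ∀ ω ω', ω ≠ ω' → IsEmpty (A ω ≃⋆ₐ[ℂ] A ω') := by
  obtain ⟨A, hA, h1, h2, h3⟩ := main allS
  exact ⟨A, hA, h1, fun ω ω' => sameEll_of _ _ (h2 ω ω'), h3⟩

end Pool.Agent.Results.MP_501a10_an.UncountableFamily
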